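import Mathlib
import Pool.Agent.P8H70.SR.Stm3

/-! Project SR, part 2: packages DIV, UP, CMP (division by `z`, and compositions, in Hölder
classes on the disc). -/

set_option autoImplicit false

open Filter Topology Metric Set

namespace Pool.Agent.P8H38.SR

open Pool.Agent.P8H70.SR

/-- `d ≤ 2 d ^ γ` for `0 ≤ d ≤ 2`, `0 < γ ≤ 1` -/
theorem le_two_rpow {d γ : ℝ} (hd0 : 0 ≤ d) (hd2 : d ≤ 2) (hg0 : 0 < γ) (hg1 : γ ≤ 1) :
    d ≤ 2 * d ^ γ := by
  rcases le_total d 1 with h | h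
  · rcases hd0.eq_or_lt with h0 | h0
    · rw [← h0, Real.zero_rpow hg0.ne']; norm_num
    · have h1 : d ^ (1 : ℝ) ≤ d ^ γ := Real.rpow_le_rpow_of_exponent_ge h0 h hg1
      rw [Real.rpow_one] at h1
      have h2 : 0 ≤ d ^ γ := Real.rpow_nonneg hd0 _
      linarith
  · have h1 : 1 ≤ d ^ γ := Real.one_le_rpow h hg0.le
    linarith

theorem dist_lt_two {z w : ℂ} (hz : z ∈ ball (0 : ℂ) 1) (hw : w ∈ ball (0 : ℂ) 1) :
    ‖z - w‖ ≤ 2 := by
  rw [mem_ball_zero_iff] at hz hw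
  calc ‖z - w‖ ≤ ‖z‖ + ‖w‖ := norm_sub_le _ _
    _ ≤ 2 := by linarith

/-- bounded and Hölder on `S` -/
def BH (α : ℝ) (g : ℂ → ℂ) (S : Set ℂ) : Prop :=
  ∃ B : ℝ, 0 ≤ B ∧ (∀ z ∈ S, ‖g z‖ ≤ B) ∧ ∀ z ∈ S, ∀ w ∈ S, ‖g z - g w‖ ≤ B * ‖z - w‖ ^ α

theorem BH.ho {α : ℝ} {g : ℂ → ℂ} {S : Set ℂ} (h : BH α g S) : HO α g S := by
  obtain ⟨B, _, _, h⟩ := h
  exact ⟨B, h⟩

theorem HO.congr {α : ℝ} {f g : ℂ → ℂ} {S : Set ℂ} (h : HO α f S) (he : ∀ z ∈ S, g z = f z) :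
    HO α g S := by
  obtain ⟨H, h⟩ := h
  refine ⟨H, fun z hz w hw => ?_⟩
  rw [he z hz, he w hw]
  exact h z hz w hw

/-- Hölder functions on subsets of the disc are bounded -/
theorem HO.bh {α : ℝ} (ha : 0 < α) (ha1 : α ≤ 1) {g : ℂ → ℂ} {S : Set ℂ} (hS : S ⊆ ball (0 : ℂ) 1)
    (h : HO α g S) : BH α g S := by
  obtain ⟨H, h⟩ := h
  rcases S.eq_empty_or_nonempty with rfl | ⟨z0, hz0⟩
  · exact ⟨0, le_rfl, by simp, by simp⟩
  · refine ⟨‖g z0‖ + |H| * 2, by positivity, fun z hz => ?_, fun z hz w hw => ?_⟩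
    · have h1 := h z hz z0 hz0
      have h2 : ‖z - z0‖ ^ α ≤ 2 := by
        calc ‖z - z0‖ ^ α ≤ (2 : ℝ) ^ α :=
              Real.rpow_le_rpow (norm_nonneg _) (dist_lt_two (hS hz) (hS hz0)) ha.le
          _ ≤ (2 : ℝ) ^ (1 : ℝ) := Real.rpow_le_rpow_of_exponent_le (by norm_num) ha1
          _ = 2 := Real.rpow_one 2
      have h3 : 0 ≤ ‖z - z0‖ ^ α := Real.rpow_nonneg (norm_nonneg _) _
      have h4 : H * ‖z - z0‖ ^ α ≤ |H| * 2 := by
        calc H * ‖z - z0‖ ^ α ≤ |H| * ‖z - z0‖ ^ α :=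
              mul_le_mul_of_nonneg_right (le_abs_self H) h3
          _ ≤ |H| * 2 := mul_le_mul_of_nonneg_left h2 (abs_nonneg H)
      have h5 : ‖g z‖ ≤ ‖g z0‖ + ‖g z - g z0‖ := by
        calc ‖g z‖ = ‖g z0 + (g z - g z0)‖ := by congr 1; ring
          _ ≤ _ := norm_add_le _ _
      linarith
    · refine (h z hz w hw).trans (mul_le_mul_of_nonneg_right ?_ (Real.rpow_nonneg (norm_nonneg _) _))
      have := le_abs_self H
      have := abs_nonneg H
      have := norm_nonneg (g z0)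
      linarith

theorem BH.add {α : ℝ} {f g : ℂ → ℂ} {S : Set ℂ} (hf : BH α f S) (hg : BH α g S) :
    BH α (fun z => f z + g z) S := by
  obtain ⟨A, hA, hA1, hA2⟩ := hf
  obtain ⟨B, hB, hB1, hB2⟩ := hg
  refine ⟨A + B, by positivity, fun z hz => (norm_add_le _ _).trans (add_le_add (hA1 z hz) (hB1 z hz)),
    fun z hz w hw => ?_⟩
  calc ‖f z + g z - (f w + g w)‖ = ‖(f z - f w) + (g z - g w)‖ := by congr 1; ring
    _ ≤ ‖f z - f w‖ + ‖g z - g w‖ := norm_add_le _ _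
    _ ≤ A * ‖z - w‖ ^ α + B * ‖z - w‖ ^ α := add_le_add (hA2 z hz w hw) (hB2 z hz w hw)
    _ = (A + B) * ‖z - w‖ ^ α := by ring

theorem BH.mul {α : ℝ} {f g : ℂ → ℂ} {S : Set ℂ} (hf : BH α f S) (hg : BH α g S) :
    BH α (fun z => f z * g z) S := by
  obtain ⟨A, hA, hA1, hA2⟩ := hf
  obtain ⟨B, hB, hB1, hB2⟩ := hg
  refine ⟨2 * (A * B), by positivity, fun z hz => ?_, fun z hz w hw => ?_⟩
  · rw [norm_mul]
    have := mul_le_mul (hA1 z hz) (hB1 z hz) (norm_nonneg _) hA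
    have h2 : 0 ≤ A * B := by positivity
    linarith
  · have hd : 0 ≤ ‖z - w‖ ^ α := Real.rpow_nonneg (norm_nonneg _) _
    calc ‖f z * g z - f w * g w‖ = ‖(f z - f w) * g z + f w * (g z - g w)‖ := by congr 1; ring
      _ ≤ ‖(f z - f w) * g z‖ + ‖f w * (g z - g w)‖ := norm_add_le _ _
      _ = ‖f z - f w‖ * ‖g z‖ + ‖f w‖ * ‖g z - g w‖ := by rw [norm_mul, norm_mul]
      _ ≤ (A * ‖z - w‖ ^ α) * B + A * (B * ‖z - w‖ ^ α) :=
          add_le_add (mul_le_mul (hA2 z hz w hw) (hB1 z hz) (norm_nonneg _) (by positivity))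
            (mul_le_mul (hA1 w hw) (hB2 z hz w hw) (norm_nonneg _) hA)
      _ = 2 * (A * B) * ‖z - w‖ ^ α := by ring

theorem BH.congr {α : ℝ} {f g : ℂ → ℂ} {S : Set ℂ} (h : BH α f S) (he : ∀ z ∈ S, g z = f z) :
    BH α g S := by
  obtain ⟨B, hB, h1, h2⟩ := h
  refine ⟨B, hB, fun z hz => by rw [he z hz]; exact h1 z hz, fun z hz w hw => ?_⟩
  rw [he z hz, he w hw]
  exact h2 z hz w hw

/-- a function with a bounded derivative on a convex subset of the disc is bounded and Hölder -/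
theorem bh_of_deriv {α : ℝ} (ha : 0 < α) (ha1 : α ≤ 1) {g g' : ℂ → ℂ} {S : Set ℂ}
    (hS : S ⊆ ball (0 : ℂ) 1) (hc : Convex ℝ S) (hd : ∀ z ∈ S, HasDerivAt g (g' z) z) {B : ℝ}
    (hB : ∀ z ∈ S, ‖g' z‖ ≤ B) : BH α g S := by
  refine HO.bh ha ha1 hS ⟨2 * |B|, fun z hz w hw => ?_⟩
  have h1 : ‖g z - g w‖ ≤ |B| * ‖z - w‖ :=
    hc.norm_image_sub_le_of_norm_hasDerivWithin_le
      (fun x hx => (hd x hx).hasDerivWithinAt) (fun x hx => (hB x hx).trans (le_abs_self B)) hw hz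
  have h2 := le_two_rpow (norm_nonneg (z - w)) (dist_lt_two (hS hz) (hS hw)) ha ha1
  calc ‖g z - g w‖ ≤ |B| * ‖z - w‖ := h1
    _ ≤ |B| * (2 * ‖z - w‖ ^ α) := mul_le_mul_of_nonneg_left h2 (abs_nonneg B)
    _ = 2 * |B| * ‖z - w‖ ^ α := by ring

theorem bh_id {α : ℝ} (ha : 0 < α) (ha1 : α ≤ 1) {S : Set ℂ} (hS : S ⊆ ball (0 : ℂ) 1) :
    BH α (fun z => z) S := by
  refine HO.bh ha ha1 hS ⟨2, fun z hz w hw => ?_⟩
  exact le_two_rpow (norm_nonneg (z - w)) (dist_lt_two (hS hz) (hS hw)) ha ha1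

theorem div : S_DIV := by
  intro F γ hg0 hg1 hF ⟨H, hH⟩
  have h0 : (0 : ℂ) ∈ ball (0 : ℂ) 1 := by simp
  have hE : BH γ (fun z => z * F z) (ball 0 1) := HO.bh hg0 hg1 Subset.rfl ⟨H, hH⟩
  obtain ⟨A, hA, hA1, hA2⟩ := hE
  -- a bound of `F` on the small disc
  have hsub : closedBall (0 : ℂ) (1 / 2) ⊆ ball 0 1 := closedBall_subset_ball (by norm_num)
  obtain ⟨M, hM⟩ := (isCompact_closedBall (0 : ℂ) (1 / 2)).exists_bound_of_continuousOn
    (hF.continuousOn.mono hsub)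
  have hdF : ∀ z ∈ ball (0 : ℂ) 1, HasDerivAt F (deriv F z) z := fun z hz =>
    (hF.differentiableAt (isOpen_ball.mem_nhds hz)).hasDerivAt
  have hF' : DifferentiableOn ℂ (deriv F) (ball 0 1) := hF.deriv isOpen_ball
  obtain ⟨M', hM'⟩ := (isCompact_closedBall (0 : ℂ) (1 / 2)).exists_bound_of_continuousOn
    (hF'.continuousOn.mono hsub)
  obtain ⟨C, hC, hC1, hC2⟩ := bh_of_deriv hg0 hg1 hsub (convex_closedBall _ _)
    (fun z hz => hdF z (hsub hz)) hM'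
  -- a bound of `F` on the disc
  obtain ⟨D, hD0, hD⟩ : ∃ D : ℝ, 0 ≤ D ∧ ∀ z ∈ ball (0 : ℂ) 1, ‖F z‖ ≤ D := by
    refine ⟨C + 2 * A, by positivity, fun z hz => ?_⟩
    rcases le_total ‖z‖ (1 / 2) with h | h
    · have := hC1 z (by simpa using h)
      linarith
    · have h1 := hA1 z hz
      simp only [norm_mul] at h1
      have h2 : 1 / 2 * ‖F z‖ ≤ ‖z‖ * ‖F z‖ := mul_le_mul_of_nonneg_right h (norm_nonneg _)
      linarith
  have key : ∀ z ∈ ball (0 : ℂ) 1, ∀ w ∈ ball (0 : ℂ) 1, 1 / 2 ≤ ‖z‖ →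
      ‖F z - F w‖ ≤ (2 * A + 4 * D) * ‖z - w‖ ^ γ := by
    intro z hz w hw hzn
    have hz0 : z ≠ 0 := by
      intro h
      rw [h, norm_zero] at hzn
      linarith
    have e : z * (F z - F w) = (z * F z - w * F w) + F w * (w - z) := by ring
    have h1 : ‖z‖ * ‖F z - F w‖ ≤ A * ‖z - w‖ ^ γ + D * ‖z - w‖ := by
      rw [← norm_mul, e]
      refine (norm_add_le _ _).trans (add_le_add (hA2 z hz w hw) ?_)
      rw [norm_mul, norm_sub_rev w z]
      exact mul_le_mul_of_nonneg_right (hD w hw) (norm_nonneg _)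
    have h2 := le_two_rpow (norm_nonneg (z - w)) (dist_lt_two hz hw) hg0 hg1
    have h3 : D * ‖z - w‖ ≤ D * (2 * ‖z - w‖ ^ γ) := mul_le_mul_of_nonneg_left h2 hD0
    have h4 : 1 / 2 * ‖F z - F w‖ ≤ ‖z‖ * ‖F z - F w‖ :=
      mul_le_mul_of_nonneg_right hzn (norm_nonneg _)
    nlinarith
  refine ⟨2 * A + 4 * D + C, fun z hz w hw => ?_⟩
  have hd : 0 ≤ ‖z - w‖ ^ γ := Real.rpow_nonneg (norm_nonneg _) _
  rcases le_total (1 / 2) ‖z‖ with h | h
  · refine (key z hz w hw h).trans (mul_le_mul_of_nonneg_right (by linarith) hd)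
  rcases le_total (1 / 2) ‖w‖ with h' | h'
  · rw [norm_sub_rev, norm_sub_rev z w]
    have hd' : 0 ≤ ‖w - z‖ ^ γ := Real.rpow_nonneg (norm_nonneg _) _
    exact (key w hw z hz h').trans (mul_le_mul_of_nonneg_right (by linarith) hd')
  · refine (hC2 z (by simpa using h) w (by simpa using h')).trans
      (mul_le_mul_of_nonneg_right ?_ hd)
    nlinarith

theorem up : S_DIV → S_UP := by
  intro hdiv φ α ha0 ha1 hφ h
  have hφ' : DifferentiableOn ℂ (deriv φ) (ball 0 1) := hφ.deriv isOpen_ball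
  have hφ'' : DifferentiableOn ℂ (deriv (deriv φ)) (ball 0 1) := hφ'.deriv isOpen_ball
  have hF1 : DifferentiableOn ℂ (fun w => deriv φ w + w * deriv (deriv φ) w) (ball 0 1) :=
    hφ'.add (differentiableOn_id.mul hφ'')
  have h1 : HO α (fun w => deriv φ w + w * deriv (deriv φ) w) (ball 0 1) := by
    refine hdiv _ α ha0 ha1.le hF1 (HO.congr h fun z _ => ?_)
    ring
  obtain ⟨B, hB0, hB, hB2⟩ := HO.bh ha0 ha1.le Subset.rfl h1
  have hG : ∀ z ∈ ball (0 : ℂ) 1, HasDerivAt (fun w => w * deriv φ w)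
      (deriv φ z + z * deriv (deriv φ) z) z := by
    intro z hz
    have h2 := (hφ'.differentiableAt (isOpen_ball.mem_nhds hz)).hasDerivAt
    have h3 := (hasDerivAt_id' z).fun_mul h2
    rw [one_mul] at h3
    exact h3
  have h2 : HO 1 (fun w => w * deriv φ w) (ball 0 1) :=
    (bh_of_deriv one_pos le_rfl Subset.rfl (convex_ball _ _) hG hB).ho
  obtain ⟨K, hK⟩ := hdiv _ 1 one_pos le_rfl hφ' h2
  have h3 : HO α (deriv φ) (ball 0 1) := by
    refine ⟨2 * |K|, fun z hz w hw => ?_⟩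
    have h4 := hK z hz w hw
    rw [Real.rpow_one] at h4
    have h5 := le_two_rpow (norm_nonneg (z - w)) (dist_lt_two hz hw) ha0 ha1.le
    calc ‖deriv φ z - deriv φ w‖ ≤ K * ‖z - w‖ := h4
      _ ≤ |K| * ‖z - w‖ := mul_le_mul_of_nonneg_right (le_abs_self K) (norm_nonneg _)
      _ ≤ |K| * (2 * ‖z - w‖ ^ α) := mul_le_mul_of_nonneg_left h5 (abs_nonneg K)
      _ = 2 * |K| * ‖z - w‖ ^ α := by ring
  refine hdiv _ α ha0 ha1.le hφ'' ?_
  obtain ⟨K3, hK3⟩ := h3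
  refine ⟨B + K3, fun z hz w hw => ?_⟩
  calc ‖z * deriv (deriv φ) z - w * deriv (deriv φ) w‖
      = ‖((deriv φ z + z * deriv (deriv φ) z) - (deriv φ w + w * deriv (deriv φ) w)) -
          (deriv φ z - deriv φ w)‖ := by congr 1; ring
    _ ≤ ‖(deriv φ z + z * deriv (deriv φ) z) - (deriv φ w + w * deriv (deriv φ) w)‖ +
          ‖deriv φ z - deriv φ w‖ := norm_sub_le _ _
    _ ≤ B * ‖z - w‖ ^ α + K3 * ‖z - w‖ ^ α := add_le_add (hB2 z hz w hw) (hK3 z hz w hw)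
    _ = (B + K3) * ‖z - w‖ ^ α := by ring

/-- an entire function composed with a bounded Hölder function -/
theorem BH.comp {α : ℝ} {f φ : ℂ → ℂ} {S : Set ℂ} {R : ℝ} (hf : Differentiable ℂ f)
    (hφ : BH α φ S) (hR : ∀ z ∈ S, ‖φ z‖ ≤ R) : BH α (fun z => f (φ z)) S := by
  obtain ⟨B, hB, _, hB2⟩ := hφ
  obtain ⟨M, hM⟩ := (isCompact_closedBall (0 : ℂ) R).exists_bound_of_continuousOn
    hf.continuous.continuousOn
  have hf' : Differentiable ℂ (deriv f) := by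
    rw [← differentiableOn_univ]
    exact (differentiableOn_univ.2 hf).deriv isOpen_univ
  obtain ⟨M', hM'⟩ := (isCompact_closedBall (0 : ℂ) R).exists_bound_of_continuousOn
    hf'.continuous.continuousOn
  have hmem : ∀ z ∈ S, φ z ∈ closedBall (0 : ℂ) R := fun z hz => by simpa using hR z hz
  refine ⟨|M| + |M'| * B, by positivity, fun z hz => ?_, fun z hz w hw => ?_⟩
  · have := hM _ (hmem z hz)
    have := le_abs_self M
    have : 0 ≤ |M'| * B := by positivity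
    linarith
  · have h1 : ‖f (φ z) - f (φ w)‖ ≤ |M'| * ‖φ z - φ w‖ :=
      (convex_closedBall (0 : ℂ) R).norm_image_sub_le_of_norm_hasDerivWithin_le
        (fun x _ => (hf x).hasDerivAt.hasDerivWithinAt)
        (fun x hx => (hM' x hx).trans (le_abs_self M')) (hmem w hw) (hmem z hz)
    calc ‖f (φ z) - f (φ w)‖ ≤ |M'| * ‖φ z - φ w‖ := h1
      _ ≤ |M'| * (B * ‖z - w‖ ^ α) := mul_le_mul_of_nonneg_left (hB2 z hz w hw) (abs_nonneg _)
      _ = (|M'| * B) * ‖z - w‖ ^ α := by ring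
      _ ≤ (|M| + |M'| * B) * ‖z - w‖ ^ α := by
          refine mul_le_mul_of_nonneg_right ?_ (Real.rpow_nonneg (norm_nonneg _) _)
          have := abs_nonneg M
          linarith

theorem cmp : S_CMP := by
  intro f φ S R α ha0 ha1 hf hφ hSo hSc hS hR h
  have hφ' : DifferentiableOn ℂ (deriv φ) (ball 0 1) := hφ.deriv isOpen_ball
  have hφ'' : DifferentiableOn ℂ (deriv (deriv φ)) (ball 0 1) := hφ'.deriv isOpen_ball
  have hf' : Differentiable ℂ (deriv f) := by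
    rw [← differentiableOn_univ]
    exact (differentiableOn_univ.2 hf).deriv isOpen_univ
  have hf'' : Differentiable ℂ (deriv (deriv f)) := by
    rw [← differentiableOn_univ]
    exact (differentiableOn_univ.2 hf').deriv isOpen_univ
  have b2 : BH α (deriv (deriv φ)) S := HO.bh ha0 ha1.le hS h
  have b1 : BH α (deriv φ) S := by
    obtain ⟨B, _, hB, _⟩ := b2
    exact bh_of_deriv ha0 ha1.le hS hSc
      (fun z hz => (hφ'.differentiableAt (isOpen_ball.mem_nhds (hS hz))).hasDerivAt) hB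
  have b0 : BH α φ S := by
    obtain ⟨B, _, hB, _⟩ := b1
    exact bh_of_deriv ha0 ha1.le hS hSc
      (fun z hz => (hφ.differentiableAt (isOpen_ball.mem_nhds (hS hz))).hasDerivAt) hB
  have c1 := BH.comp hf' b0 (fun z hz => hR z (hS hz))
  have c2 := BH.comp hf'' b0 (fun z hz => hR z (hS hz))
  have bi := bh_id ha0 ha1.le hS
  have d1 : ∀ z ∈ ball (0 : ℂ) 1, HasDerivAt (fun z => f (φ z)) (deriv f (φ z) * deriv φ z) z := by
    intro z hz
    exact ((hf (φ z)).hasDerivAt).comp z (hφ.differentiableAt (isOpen_ball.mem_nhds hz)).hasDerivAt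
  have e1 : ∀ z ∈ ball (0 : ℂ) 1, deriv (fun z => f (φ z)) z = deriv f (φ z) * deriv φ z :=
    fun z hz => (d1 z hz).deriv
  have e2 : ∀ z ∈ ball (0 : ℂ) 1, deriv (deriv (fun z => f (φ z))) z =
      deriv (deriv f) (φ z) * deriv φ z * deriv φ z + deriv f (φ z) * deriv (deriv φ) z := by
    intro z hz
    have h1 : deriv (fun z => f (φ z)) =ᶠ[𝓝 z] fun z => deriv f (φ z) * deriv φ z := by
      filter_upwards [isOpen_ball.mem_nhds hz] with w hw using e1 w hw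
    rw [h1.deriv_eq]
    have h2 : HasDerivAt (fun z => deriv f (φ z)) (deriv (deriv f) (φ z) * deriv φ z) z :=
      ((hf' (φ z)).hasDerivAt).comp z (hφ.differentiableAt (isOpen_ball.mem_nhds hz)).hasDerivAt
    exact (h2.mul (hφ'.differentiableAt (isOpen_ball.mem_nhds hz)).hasDerivAt).deriv
  have main : BH α (fun z => z * (deriv f (φ z) * deriv φ z) +
      z * (z * (deriv (deriv f) (φ z) * (deriv φ z * deriv φ z) +
        deriv f (φ z) * deriv (deriv φ) z))) S :=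
    (bi.mul (c1.mul b1)).add (bi.mul (bi.mul ((c2.mul (b1.mul b1)).add (c1.mul b2))))
  refine (main.congr fun z hz => ?_).ho
  rw [e1 z (hS hz), e2 z (hS hz)]
  ring

end Pool.Agent.P8H38.SR
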